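import Pool.Agent.Run7.h860.Hd.Stm

set_option autoImplicit false

open Polynomial Finset

namespace Pool.Agent.Run7.h374.Hd

open Pool.Agent.Run7.h860.Hd

theorem t_EX : S_EX := by
  classical
  intro L ι _ _ _ n c hc J hJ
  -- the span of all rows is everything
  have hspan : Submodule.span L (Set.range c) = ⊤ := by
    by_contra hne
    obtain ⟨f, hf, hf2⟩ := Submodule.exists_le_ker_of_lt_top _ (lt_top_iff_ne_top.mpr hne)
    apply hf
    have h0 : (fun j => f (Pi.single j 1)) = 0 := by
      apply hc
      intro i
      have h1 : f (c i) = 0 := by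
        have := hf2 (Submodule.subset_span ⟨i, rfl⟩)
        exact this
      rw [← h1]
      conv_rhs => rw [show c i = ∑ j, c i j • (Pi.single j (1 : L) : Fin n → L) by
        simpa using (pi_eq_sum_univ' (c i))]
      rw [map_sum]
      apply Finset.sum_congr rfl
      intro j _
      rw [map_smul, smul_eq_mul]
    apply LinearMap.ext
    intro v
    rw [show v = ∑ j, v j • (Pi.single j (1 : L) : Fin n → L) by
        simpa using (pi_eq_sum_univ' v), map_sum]
    simp only [map_smul]
    simp [fun j => congrFun h0 j]
  -- extension
  have hJ' : LinearIndepOn L c (J : Set ι) := hJ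
  obtain ⟨b, -, hJb, hsub, hb⟩ := exists_linearIndepOn_extension hJ' (Set.subset_univ _)
  have hspanb : ⊤ ≤ Submodule.span L (Set.range fun i : b => c i) := by
    rw [← hspan, Submodule.span_le]
    rintro _ ⟨i, rfl⟩
    have := hsub ⟨i, Set.mem_univ i, rfl⟩
    have h2 : c '' b = Set.range fun i : b => c i := by
      rw [Set.image_eq_range]
    rw [← h2]
    exact this
  let B : Module.Basis b L (Fin n → L) := Module.Basis.mk hb hspanb
  have hcard : Fintype.card b = n := by
    have := Module.finrank_eq_card_basis B
    simpa using this.symm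
  let e : Fin n ≃ b := (Fintype.equivFinOfCardEq hcard).symm
  refine ⟨fun a => (e a : ι), ?_, ?_, ?_⟩
  · have hli : LinearIndependent L (fun a : Fin n => c (e a)) :=
      (LinearIndependent.comp hb e e.injective)
    have hu : IsUnit (Matrix.of fun a => c (e a)) := by
      rw [← Matrix.linearIndependent_rows_iff_isUnit]
      exact hli
    exact ((Matrix.isUnit_iff_isUnit_det _).mp hu).ne_zero
  · intro x y hxy
    exact e.injective (Subtype.ext hxy)
  · intro i hi
    refine ⟨e.symm ⟨i, hJb hi⟩, by simp⟩

end Pool.Agent.Run7.h374.Hd
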