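import Pool.Agent.Run7.h860.Hd.Stm

set_option autoImplicit false

open Polynomial Finset

namespace Pool.Agent.Run7.h374.Hd

open Pool.Agent.Run7.h860.Hd

theorem t_LO : S_LO := by
  classical
  intro K _ F d z a hz j G hG
  have h1 : (hasseDeriv j (∏ i, (X - C (z i)))).eval a
      = ∑ t ∈ (univ : Finset (Fin d)).powerset.filter (fun t => t.card = j), ∏ i ∈ tᶜ, (a - z i) := by
    rw [← taylor_coeff]
    have h2 : taylor a (∏ i, (X - C (z i))) = ∏ i, (X + C (a - z i)) := by
      have : taylor a (∏ i, (X - C (z i))) = ∏ i, taylor a (X - C (z i)) :=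
        map_prod (taylorAlgHom a) _ _
      rw [this]
      apply Finset.prod_congr rfl
      intro i _
      rw [map_sub, taylor_X, taylor_C, C_sub]
      ring
    rw [h2, Finset.prod_add, finsetSum_coeff, Finset.sum_filter]
    apply Finset.sum_congr rfl
    intro t _
    have h3 : (∏ i ∈ t, (X : K[X])) * ∏ i ∈ univ \ t, C (a - z i)
        = C (∏ i ∈ tᶜ, (a - z i)) * X ^ t.card := by
      rw [Finset.prod_const, map_prod, Finset.compl_eq_univ_sdiff]
      ring
    rw [h3, coeff_C_mul_X_pow]
    by_cases h : t.card = j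
    · simp [h]
    · simp [h, Ne.symm h]
  rw [h1]
  have hpos : ∀ i, 0 < F (a - z i) := fun i => F.pos (sub_ne_zero.mpr (hz i))
  have hM : ∀ i, 1 ≤ max 1 (F (z i)) := fun i => le_max_left _ _
  have hM0 : ∀ i, 0 < max 1 (F (z i)) := fun i => lt_of_lt_of_le one_pos (hM i)
  have hterm : ∀ t : Finset (Fin d), t.card = j →
      F (∏ i ∈ tᶜ, (a - z i)) ≤ (∏ i, max 1 (F (z i))) * Real.exp (-G) := by
    intro t ht
    rw [map_prod]
    have h4 : ∏ i ∈ tᶜ, F (a - z i)
        = (∏ i ∈ tᶜ, max 1 (F (z i)))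
          * Real.exp (-∑ i ∈ tᶜ, Real.log (max 1 (F (z i)) / F (a - z i))) := by
      rw [← Finset.sum_neg_distrib, Real.exp_sum, ← Finset.prod_mul_distrib]
      apply Finset.prod_congr rfl
      intro i _
      rw [← Real.log_inv, inv_div, Real.exp_log (div_pos (hpos i) (hM0 i))]
      field_simp
    rw [h4]
    apply mul_le_mul
    · rw [← Finset.prod_mul_prod_compl t]
      have : 1 ≤ ∏ i ∈ t, max 1 (F (z i)) := by
        calc (1 : ℝ) = ∏ i ∈ t, (1 : ℝ) := by simp
          _ ≤ _ := Finset.prod_le_prod (fun i _ => zero_le_one) (fun i _ => hM i)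
      have h0 : 0 ≤ ∏ i ∈ tᶜ, max 1 (F (z i)) := Finset.prod_nonneg fun i _ => (hM0 i).le
      nlinarith
    · exact Real.exp_le_exp.mpr (neg_le_neg (hG t ht))
    · exact (Real.exp_pos _).le
    · exact Finset.prod_nonneg fun i _ => (hM0 i).le
  calc F (∑ t ∈ (univ : Finset (Fin d)).powerset.filter (fun t => t.card = j), ∏ i ∈ tᶜ, (a - z i))
      ≤ ∑ t ∈ (univ : Finset (Fin d)).powerset.filter (fun t => t.card = j),
          F (∏ i ∈ tᶜ, (a - z i)) := F.sum_le _ _
    _ ≤ ∑ t ∈ (univ : Finset (Fin d)).powerset.filter (fun t => t.card = j),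
          (∏ i, max 1 (F (z i))) * Real.exp (-G) := by
        apply Finset.sum_le_sum
        intro t ht
        exact hterm t (Finset.mem_filter.mp ht).2
    _ = (((univ : Finset (Fin d)).powerset.filter (fun t => t.card = j)).card : ℝ)
          * ((∏ i, max 1 (F (z i))) * Real.exp (-G)) := by
        rw [Finset.sum_const, nsmul_eq_mul]
    _ ≤ 2 ^ d * ((∏ i, max 1 (F (z i))) * Real.exp (-G)) := by
        apply mul_le_mul_of_nonneg_right
        · have : ((univ : Finset (Fin d)).powerset.filter (fun t => t.card = j)).card ≤ 2 ^ d := by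
            refine (Finset.card_filter_le _ _).trans ?_
            rw [Finset.card_powerset, Finset.card_univ, Fintype.card_fin]
          exact_mod_cast this
        · exact mul_nonneg (Finset.prod_nonneg fun i _ => (hM0 i).le) (Real.exp_pos _).le
    _ = 2 ^ d * (∏ i, max 1 (F (z i))) * Real.exp (-G) := by ring

end Pool.Agent.Run7.h374.Hd
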